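import Pool.Agent.H37Ov.Lin

open MeasureTheory Matrix
open scoped ContDiff

noncomputable section

namespace Pool.Agent.Results.MP_7221a0_gt.Ovaloids

/-- Euclidean four-space. -/
abbrev E4 := EuclideanSpace ℝ (Fin 4)

/-- The unit three-sphere in Euclidean four-space. -/
abbrev S3 := Metric.sphere (0 : E4) 1

/-- Real four by four matrices. -/
abbrev M4 := Matrix (Fin 4) (Fin 4) ℝ

/-- The Hessian matrix of `H` at `x`. -/
def hess (H : E4 → ℝ) (x : E4) : M4 :=
  Matrix.of fun i j =>
    fderiv ℝ (fderiv ℝ H) x (EuclideanSpace.single i 1) (EuclideanSpace.single j 1)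

/-- `H` is the support function (extended to be positively homogeneous of degree one) of a smooth
closed strictly convex hypersurface of Euclidean four-space.  The hypersurface is the image of the
unit sphere under `ν ↦ grad H (ν)`; this point has outer unit normal `ν`. -/
structure IsSupport (H : E4 → ℝ) : Prop where
  smooth : ContDiffOn ℝ ∞ H {0}ᶜ
  homog : ∀ t : ℝ, 0 < t → ∀ x : E4, H (t • x) = t * H x
  convex : ∀ x : E4, ‖x‖ = 1 → ∀ u : Fin 4 → ℝ, (∑ i, x i * u i) = 0 → u ≠ 0 →
    0 < ∑ i, ∑ j, hess H x i j * u i * u j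

/-- Matrix of the orthogonal projection onto the line of the unit vector `ν`. -/
def P (ν : S3) : M4 := Matrix.of fun i j => (ν : E4) i * (ν : E4) j

/-- The differential at `ν` of the parametrisation `grad H` of the hypersurface by its outer
normal, on the tangent space `ν^⊥` (of the sphere at `ν` and of the hypersurface at
`grad H (ν)`), extended to four-space by `ν ↦ ν`.  The induced metric, read on the sphere, is
`g (u, v) = ⟨W u, W v⟩` for `u, v` orthogonal to `ν`. -/
def W (H : E4 → ℝ) (ν : S3) : M4 := (1 - P ν) * hess H ν * (1 - P ν) + P ν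

/-- The shape operator (differential of the Gauss map) at the point with outer normal `ν`, on
`ν^⊥`, extended to four-space by `ν ↦ 0`. -/
def shape (H : E4 → ℝ) (ν : S3) : M4 := (W H ν)⁻¹ - P ν

/-- The Ricci endomorphism of the induced metric, by the Gauss equation (zero on `ν`). -/
def ricci (H : E4 → ℝ) (ν : S3) : M4 :=
  (shape H ν).trace • shape H ν - shape H ν * shape H ν

/-- The scalar curvature of the induced metric. -/
def scal (H : E4 → ℝ) (ν : S3) : ℝ := (ricci H ν).trace

/-- The Schouten endomorphism `Ric - (R / 4) id` of the induced metric on `ν^⊥`, extended to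
four-space by `ν ↦ 0`. -/
def schouten (H : E4 → ℝ) (ν : S3) : M4 := ricci H ν - (scal H ν / 4) • (1 - P ν)

/-- The first elementary symmetric function of the eigenvalues of the Schouten endomorphism. -/
def sigma1 (H : E4 → ℝ) (ν : S3) : ℝ := (schouten H ν).trace

/-- The second elementary symmetric function of the eigenvalues of the Schouten endomorphism. -/
def sigma2 (H : E4 → ℝ) (ν : S3) : ℝ :=
  ((schouten H ν).trace ^ 2 - (schouten H ν * schouten H ν).trace) / 2

/-- `S (g)`, the integral of `sigma1` against the Riemannian volume of the induced metric, whose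
density with respect to the surface measure of the unit sphere is `det W`. -/
def total (H : E4 → ℝ) : ℝ :=
  ∫ ν : S3, sigma1 H ν * (W H ν).det ∂(volume : Measure E4).toSphere

/-! ### transfer to linear maps -/

/-- The standard basis. -/
def bs : Module.Basis (Fin 4) ℝ E4 := (EuclideanSpace.basisFun (Fin 4) ℝ).toBasis

/-- Matrices as linear maps. -/
def Φ : M4 ≃ₐ[ℝ] Module.End ℝ E4 := Matrix.toLinAlgEquiv bs

theorem bs_apply (i : Fin 4) : bs i = EuclideanSpace.single i 1 := by
  simp [bs]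

theorem Φ_bs (A : M4) (j : Fin 4) : Φ A (bs j) = ∑ i, A i j • bs i := by
  rw [Φ, Matrix.toLinAlgEquiv_self]

theorem trace_Φ (A : M4) : LinearMap.trace ℝ E4 (Φ A) = A.trace := by
  rw [LinearMap.trace_eq_matrix_trace ℝ bs]
  congr 1
  exact (LinearMap.toMatrixAlgEquiv bs).apply_symm_apply A

theorem det_Φ (A : M4) : LinearMap.det (Φ A) = A.det := by
  rw [← LinearMap.det_toMatrix bs]
  congr 1
  exact (LinearMap.toMatrixAlgEquiv bs).apply_symm_apply A

theorem Φ_P (ν : S3) : Φ (P ν) = H37Ov.P ν := by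
  refine bs.ext fun j => ?_
  rw [Φ_bs, H37Ov.P_apply, bs_apply, EuclideanSpace.inner_single_right]
  ext k
  simp [P, bs_apply, Pi.single_apply, mul_comm]

theorem sum_single (u : E4) : u = ∑ i, u i • EuclideanSpace.single i (1 : ℝ) := by
  ext k
  simp [Pi.single_apply]

theorem hess_bilin (H : E4 → ℝ) (x u v : E4) :
    fderiv ℝ (fderiv ℝ H) x u v = ∑ i, ∑ j, hess H x i j * u i * v j := by
  conv_lhs => rw [sum_single u, sum_single v]
  simp only [map_sum, map_smul, _root_.sum_apply, _root_.smul_apply,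
    smul_eq_mul, hess, Matrix.of_apply, Finset.mul_sum]
  rw [Finset.sum_comm]
  refine Finset.sum_congr rfl fun i _ => Finset.sum_congr rfl fun j _ => ?_
  ring

theorem inner_eq (x u : E4) : inner ℝ x u = ∑ i, x i * u i := by
  rw [PiLp.inner_apply]
  refine Finset.sum_congr rfl fun i _ => ?_
  simp [mul_comm]

theorem fderiv_grad {H : E4 → ℝ} (h : ContDiffOn ℝ ∞ H {0}ᶜ) {x : E4} (hx : x ≠ 0) (u v : E4) :
    inner ℝ (fderiv ℝ (gradient H) x u) v = fderiv ℝ (fderiv ℝ H) x u v := by
  have hc : ContDiffAt ℝ ∞ H x := h.contDiffAt (isOpen_compl_singleton.mem_nhds (by simpa using hx))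
  have h1 : DifferentiableAt ℝ (fderiv ℝ H) x := by
    have := hc.fderiv_right (m := 1) (by norm_cast)
    exact this.differentiableAt (by norm_num)
  have h2 := ((InnerProductSpace.toDual ℝ E4).symm.toContinuousLinearEquiv.toContinuousLinearMap :
        (E4 →L[ℝ] ℝ) →L[ℝ] E4).hasFDerivAt (x := fderiv ℝ H x)
  have h3 : HasFDerivAt (gradient H)
      (((InnerProductSpace.toDual ℝ E4).symm.toContinuousLinearEquiv.toContinuousLinearMap :
        (E4 →L[ℝ] ℝ) →L[ℝ] E4).comp (fderiv ℝ (fderiv ℝ H) x)) x := h2.comp x h1.hasFDerivAt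
  rw [h3.fderiv]
  simp

theorem isSupport {H : E4 → ℝ} (hH : IsSupport H) : H37Ov.IsSupport H where
  smooth := hH.smooth
  homog := hH.homog
  convex := by
    intro x u hx hxu hu
    have hx0 : x ≠ 0 := by
      rintro rfl
      simp at hx
    rw [fderiv_grad hH.smooth hx0, hess_bilin]
    refine hH.convex x hx (fun i => u i) ?_ ?_
    · rw [← inner_eq]
      exact hxu
    · intro h
      apply hu
      ext i
      exact congrFun h i

theorem Φ_hess {H : E4 → ℝ} (hH : IsSupport H) (ν : S3) :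
    Φ (hess H ν) = (fderiv ℝ (gradient H) (ν : E4) : E4 →ₗ[ℝ] E4) := by
  have hK := isSupport hH
  have hν := H37Ov.ne_zero ν
  refine bs.ext fun j => ?_
  rw [Φ_bs, ContinuousLinearMap.coe_coe, bs_apply]
  ext k
  have h1 : (fderiv ℝ (gradient H) (ν : E4) (EuclideanSpace.single j 1)) k = hess H ν k j := by
    have h2 : (fderiv ℝ (gradient H) (ν : E4) (EuclideanSpace.single j 1)) k
        = inner ℝ (fderiv ℝ (gradient H) (ν : E4) (EuclideanSpace.single j 1))
          (EuclideanSpace.single k (1 : ℝ)) := by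
      rw [EuclideanSpace.inner_single_right]
      simp
    rw [h2, H37Ov.inner_fderiv_symm hK hν, real_inner_comm, fderiv_grad hH.smooth hν]
    rfl
  rw [h1]
  simp [bs_apply, Pi.single_apply]

theorem Φ_W {H : E4 → ℝ} (hH : IsSupport H) (ν : S3) : Φ (W H ν) = H37Ov.W H ν := by
  rw [W, H37Ov.W]
  simp only [map_add, map_mul, map_sub, map_one, Φ_P, Φ_hess hH]

theorem det_W {H : E4 → ℝ} (hH : IsSupport H) (ν : S3) :
    (W H ν).det = LinearMap.det (H37Ov.W H ν) := by
  rw [← Φ_W hH, det_Φ]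

theorem Φ_inv {H : E4 → ℝ} (hH : IsSupport H) (ν : S3) :
    Φ (W H ν)⁻¹ = Ring.inverse (H37Ov.W H ν) := by
  have hu : IsUnit (W H ν).det := by
    rw [det_W hH]
    exact (H37Ov.det_W_pos (isSupport hH) ν).ne'.isUnit
  have h1 : Φ (W H ν)⁻¹ * H37Ov.W H ν = 1 := by
    rw [← Φ_W hH, ← map_mul, Matrix.nonsing_inv_mul _ hu, map_one]
  have h2 : H37Ov.W H ν * Ring.inverse (H37Ov.W H ν) = 1 :=
    Ring.mul_inverse_cancel _ (H37Ov.isUnit_W (isSupport hH) ν)
  calc Φ (W H ν)⁻¹ = Φ (W H ν)⁻¹ * (H37Ov.W H ν * Ring.inverse (H37Ov.W H ν)) := by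
        rw [h2, mul_one]
    _ = Ring.inverse (H37Ov.W H ν) := by rw [← mul_assoc, h1, one_mul]

theorem Φ_shape {H : E4 → ℝ} (hH : IsSupport H) (ν : S3) :
    Φ (shape H ν) = H37Ov.shape H ν := by
  rw [shape, map_sub, Φ_inv hH, Φ_P, H37Ov.shape]

theorem Φ_ricci {H : E4 → ℝ} (hH : IsSupport H) (ν : S3) :
    Φ (ricci H ν) = H37Ov.ricci H ν := by
  rw [ricci, map_sub, map_smul, map_mul, Φ_shape hH, H37Ov.ricci, ← trace_Φ, Φ_shape hH]

theorem scal_eq {H : E4 → ℝ} (hH : IsSupport H) (ν : S3) : scal H ν = H37Ov.scal H ν := by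
  rw [scal, ← trace_Φ, Φ_ricci hH, H37Ov.scal]

theorem Φ_schouten {H : E4 → ℝ} (hH : IsSupport H) (ν : S3) :
    Φ (schouten H ν) = H37Ov.schouten H ν := by
  rw [schouten, map_sub, map_smul, map_sub, map_one, Φ_ricci hH, Φ_P, scal_eq hH, H37Ov.schouten]

theorem sigma1_eq {H : E4 → ℝ} (hH : IsSupport H) (ν : S3) : sigma1 H ν = H37Ov.sigma1 H ν := by
  rw [sigma1, ← trace_Φ, Φ_schouten hH, H37Ov.sigma1]

theorem sigma2_eq {H : E4 → ℝ} (hH : IsSupport H) (ν : S3) : sigma2 H ν = H37Ov.sigma2 H ν := by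
  rw [sigma2, ← trace_Φ, ← trace_Φ, map_mul, Φ_schouten hH, H37Ov.sigma2]

theorem total_eq {H : E4 → ℝ} (hH : IsSupport H) : total H = H37Ov.total H := by
  rw [total, H37Ov.total]
  congr 1
  funext ν
  rw [sigma1_eq hH, det_W hH]

theorem result (H : E4 → ℝ) (hH : IsSupport H)
    (hq : ∀ ν : S3, 1 / 2 ≤ sigma2 H ν / sigma1 H ν) :
    total H ≤ 3 * Real.pi ^ 2 ∧ (total H = 3 * Real.pi ^ 2 → ∀ ν : S3, W H ν = 1) := by
  have h := H37Ov.main H (isSupport hH) (fun ν => by
    have := hq ν
    rw [sigma1_eq hH, sigma2_eq hH] at this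
    exact this)
  rw [total_eq hH]
  refine ⟨h.1, fun heq ν => ?_⟩
  have h2 := h.2 heq ν
  rw [← Φ_W hH] at h2
  apply Φ.injective
  rw [h2, map_one]

end Pool.Agent.Results.MP_7221a0_gt.Ovaloids
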