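import Pool.Agent.RFS.FTop

/-!
Full positive answer to Q1 of MP_7221a0_gt: on every closed 3-manifold `M`, every metric `g` with
`σ₁(g) > 0` and `σ₂(g) / σ₁(g) ≥ 1 / 2` (the value of the round unit 3-sphere) satisfies
`∫ σ₁(g) ≤ 3 π²` (the value of the round unit 3-sphere).

Proof: a new functional which is monotone along the Ricci flow (Pool.Agent.RFS).
-/

open scoped Manifold ContDiff Matrix Bundle
open Set MeasureTheory

namespace Pool.Agent.Results.MP_7221a0_gt.SigmaQuotient

open Pool.Agent.RFS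

theorem result (M : Type*) [TopologicalSpace M] [T2Space M] [CompactSpace M] [ConnectedSpace M]
    [ChartedSpace (EuclideanSpace ℝ (Fin 3)) M] [IsManifold (𝓡 3) ∞ M] [MeasurableSpace M]
    [BorelSpace M] (g : Metric M) :
    (∃! μ : Measure M, IsRiemannianVolume g μ) ∧
    ∀ μ : Measure M, IsRiemannianVolume g μ →
      (∀ p : M, 0 < sigma1 g p) → (∀ p : M, 1 / 2 ≤ sigma2 g p / sigma1 g p) →
        Integrable (sigma1 g) μ ∧ ∫ p, sigma1 g p ∂μ ≤ 3 * Real.pi ^ 2 :=
  ⟨existsUnique_volume g, fun μ hμ h1 h2 => ⟨integrable_sigma1 g hμ, sigma_bound M g μ hμ h1 h2⟩⟩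

end Pool.Agent.Results.MP_7221a0_gt.SigmaQuotient
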