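import Mathlib

open MeasureTheory Set

noncomputable section

namespace Pool.Agent.Results.MP_7221a0_gt.TorusMetrics

/-- Profile data of a torus-invariant metric `dr² + a(r)² dθ² + b(r)² dφ²` on the three-sphere,
`0 < r < L`: the circle of the angle `θ` collapses at `r = 0` and the circle of the angle `φ`
collapses at `r = L`, both without cone singularity. -/
structure IsProfile (L : ℝ) (a b : ℝ → ℝ) : Prop where
  pos : 0 < L
  smooth_a : ContDiff ℝ 2 a
  smooth_b : ContDiff ℝ 2 b
  a_zero : a 0 = 0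
  deriv_a_zero : deriv a 0 = 1
  deriv_a_end : deriv a L = 0
  a_pos : ∀ r ∈ Ioc 0 L, 0 < a r
  b_end : b L = 0
  deriv_b_end : deriv b L = -1
  deriv_b_zero : deriv b 0 = 0
  b_pos : ∀ r ∈ Ico 0 L, 0 < b r

/-- Sectional curvature of the plane spanned by `∂r` and `∂θ`. -/
def K₁ (a : ℝ → ℝ) (r : ℝ) : ℝ := -deriv (deriv a) r / a r

/-- Sectional curvature of the plane spanned by `∂r` and `∂φ`. -/
def K₂ (b : ℝ → ℝ) (r : ℝ) : ℝ := -deriv (deriv b) r / b r

/-- Sectional curvature of the plane spanned by `∂θ` and `∂φ`. -/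
def K₃ (a b : ℝ → ℝ) (r : ℝ) : ℝ := -(deriv a r * deriv b r) / (a r * b r)

/-- Scalar curvature. -/
def scal (a b : ℝ → ℝ) (r : ℝ) : ℝ := 2 * (K₁ a r + K₂ b r + K₃ a b r)

/-- The three eigenvalues of the Schouten tensor `Ric - (R / 4) g`
(directions `∂r`, `∂θ`, `∂φ`). -/
def lam₁ (a b : ℝ → ℝ) (r : ℝ) : ℝ := (K₁ a r + K₂ b r) - scal a b r / 4
@[inherit_doc lam₁]
def lam₂ (a b : ℝ → ℝ) (r : ℝ) : ℝ := (K₁ a r + K₃ a b r) - scal a b r / 4
@[inherit_doc lam₁]
def lam₃ (a b : ℝ → ℝ) (r : ℝ) : ℝ := (K₂ b r + K₃ a b r) - scal a b r / 4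

/-- First elementary symmetric function of the Schouten eigenvalues. -/
def sigma1 (a b : ℝ → ℝ) (r : ℝ) : ℝ := lam₁ a b r + lam₂ a b r + lam₃ a b r

/-- Second elementary symmetric function of the Schouten eigenvalues. -/
def sigma2 (a b : ℝ → ℝ) (r : ℝ) : ℝ :=
  lam₁ a b r * lam₂ a b r + lam₁ a b r * lam₃ a b r + lam₂ a b r * lam₃ a b r

/-- `S (g)`: the integral of `sigma1` against the volume `a b dr dθ dφ`, where both angles run over
a circle of length `2π`. -/
def total (L : ℝ) (a b : ℝ → ℝ) : ℝ :=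
  (2 * Real.pi) ^ 2 * ∫ r in (0 : ℝ)..L, sigma1 a b r * (a r * b r)

/-! ### algebra -/

theorem schur_aux {x y z : ℝ} (hz : 0 < z) (hxy : y ≤ x) (hyz : z ≤ y) :
    0 ≤ x * (x - y) * (x - z) + y * (y - x) * (y - z) + z * (z - x) * (z - y) ∧
      (x * (x - y) * (x - z) + y * (y - x) * (y - z) + z * (z - x) * (z - y) = 0 →
        x = y ∧ y = z) := by
  have e : x * (x - y) * (x - z) + y * (y - x) * (y - z) + z * (z - x) * (z - y)
      = (x - y) ^ 2 * (x + y - z) + z * (x - z) * (y - z) := by ring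
  have h1 : 0 ≤ (x - y) ^ 2 * (x + y - z) := mul_nonneg (sq_nonneg _) (by linarith)
  have h2 : 0 ≤ z * (x - z) * (y - z) :=
    mul_nonneg (mul_nonneg hz.le (by linarith)) (by linarith)
  refine ⟨by linarith, fun h => ?_⟩
  have h3 : (x - y) ^ 2 * (x + y - z) = 0 := by linarith
  have h4 : z * (x - z) * (y - z) = 0 := by linarith
  have h5 : x = y := by
    rcases mul_eq_zero.mp h3 with h | h
    · have := pow_eq_zero_iff (two_ne_zero) |>.mp h
      linarith
    · linarith
  refine ⟨h5, ?_⟩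
  rcases mul_eq_zero.mp h4 with h | h
  · rcases mul_eq_zero.mp h with h | h
    · linarith
    · linarith
  · linarith

theorem schur {x y z : ℝ} (hx : 0 < x) (hy : 0 < y) (hz : 0 < z) :
    0 ≤ x * (x - y) * (x - z) + y * (y - x) * (y - z) + z * (z - x) * (z - y) ∧
      (x * (x - y) * (x - z) + y * (y - x) * (y - z) + z * (z - x) * (z - y) = 0 →
        x = y ∧ y = z) := by
  rcases le_total x y with h1 | h1 <;> rcases le_total y z with h2 | h2 <;>
    rcases le_total x z with h3 | h3
  · obtain ⟨p, q⟩ := schur_aux (x := z) (y := y) (z := x) hx h2 h1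
    exact ⟨by linarith, fun h => ⟨(q (by linarith)).2.symm, (q (by linarith)).1.symm⟩⟩
  · obtain ⟨p, q⟩ := schur_aux (x := z) (y := y) (z := x) hx h2 h1
    exact ⟨by linarith, fun h => ⟨(q (by linarith)).2.symm, (q (by linarith)).1.symm⟩⟩
  · obtain ⟨p, q⟩ := schur_aux (x := y) (y := z) (z := x) hx h2 h3
    refine ⟨by linarith, fun h => ?_⟩
    obtain ⟨u, v⟩ := q (by linarith)
    exact ⟨by linarith, by linarith⟩
  · obtain ⟨p, q⟩ := schur_aux (x := y) (y := x) (z := z) hz h1 h3
    refine ⟨by linarith, fun h => ?_⟩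
    obtain ⟨u, v⟩ := q (by linarith)
    exact ⟨by linarith, by linarith⟩
  · obtain ⟨p, q⟩ := schur_aux (x := z) (y := x) (z := y) hy h3 h1
    refine ⟨by linarith, fun h => ?_⟩
    obtain ⟨u, v⟩ := q (by linarith)
    exact ⟨by linarith, by linarith⟩
  · obtain ⟨p, q⟩ := schur_aux (x := x) (y := z) (z := y) hy h3 h2
    refine ⟨by linarith, fun h => ?_⟩
    obtain ⟨u, v⟩ := q (by linarith)
    exact ⟨by linarith, by linarith⟩
  · exact schur_aux (x := x) (y := y) (z := z) hz h1 h2
  · exact schur_aux (x := x) (y := y) (z := z) hz h1 h2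

/-- Positivity of the sectional curvatures when `sigma1` and `sigma2` are positive. -/
theorem pos_of_cone {x y z : ℝ} (hs : 0 < x + y + z)
    (hq : 0 < 4 * (x * y + y * z + z * x) - (x + y + z) ^ 2) : 0 < x ∧ 0 < y ∧ 0 < z := by
  refine ⟨?_, ?_, ?_⟩ <;> by_contra hneg <;> push Not at hneg
  · nlinarith [sq_nonneg (y - z), sq_nonneg x, mul_nonneg (neg_nonneg.mpr hneg)
      (show 0 ≤ y + z by linarith)]
  · nlinarith [sq_nonneg (x - z), sq_nonneg y, mul_nonneg (neg_nonneg.mpr hneg)
      (show 0 ≤ x + z by linarith)]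
  · nlinarith [sq_nonneg (y - x), sq_nonneg z, mul_nonneg (neg_nonneg.mpr hneg)
      (show 0 ≤ y + x by linarith)]

theorem curv_bound {x y z : ℝ} (hx : 0 < x) (hy : 0 < y) (hz : 0 < z)
    (hq : x + y + z ≤ 4 * (x * y + y * z + z * x) - (x + y + z) ^ 2) :
    (x + y + z) ^ 2 ≤ 9 * (x * y * z) ∧
      ((x + y + z) ^ 2 = 9 * (x * y * z) → x = 1 ∧ y = 1 ∧ z = 1) := by
  obtain ⟨h1, h2⟩ := schur hx hy hz
  have e : x * (x - y) * (x - z) + y * (y - x) * (y - z) + z * (z - x) * (z - y)
      = (x + y + z) ^ 3 - 4 * (x + y + z) * (x * y + y * z + z * x) + 9 * (x * y * z) := by ring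
  rw [e] at h1
  rw [e] at h2
  have hs : 0 < x + y + z := by positivity
  have h3 := mul_le_mul_of_nonneg_left hq hs.le
  refine ⟨by nlinarith, fun heq => ?_⟩
  have h4 : (x + y + z) ^ 3 - 4 * (x + y + z) * (x * y + y * z + z * x) + 9 * (x * y * z) = 0 :=
    le_antisymm (by nlinarith) h1
  obtain ⟨h5, h6⟩ := h2 h4
  subst h6
  subst h5
  have h7 : 9 * x ^ 2 * (x - 1) = 0 := by linarith
  have : x = 1 := by
    rcases mul_eq_zero.mp h7 with h | h
    · exfalso
      have : 0 < 9 * x ^ 2 := by positivity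
      linarith
    · linarith
  exact ⟨this, this, this⟩

/-- The pointwise estimate of the integrand: here `x = -a''`, `y = -b''`, `p = a'`, `s = -b'`. -/
theorem integrand_bound {a b x y p s : ℝ} (ha : 0 < a) (hb : 0 < b) (hp : 0 < p) (hs : 0 < s)
    (hx : 0 < x) (hy : 0 < y)
    (hq : x / a + y / b + p * s / (a * b) ≤ 4 * (x / a * (y / b) + y / b * (p * s / (a * b))
      + p * s / (a * b) * (x / a)) - (x / a + y / b + p * s / (a * b)) ^ 2) :
    (x * b + y * a + p * s) ≤ 3 / 2 * (p * x + s * y) ∧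
      ((x * b + y * a + p * s) = 3 / 2 * (p * x + s * y) → x / a = 1 ∧ y / b = 1) := by
  obtain ⟨h1, h2⟩ := curv_bound (div_pos hx ha) (div_pos hy hb)
    (div_pos (mul_pos hp hs) (mul_pos ha hb)) hq
  have e1 : x / a + y / b + p * s / (a * b) = (x * b + y * a + p * s) / (a * b) := by
    field_simp
  have e2 : 9 * (x / a * (y / b) * (p * s / (a * b))) = 9 * (p * x * (s * y)) / (a * b) ^ 2 := by
    field_simp
  rw [e1, e2, div_pow, div_le_div_iff_of_pos_right (by positivity)] at h1
  have h3 : (x * b + y * a + p * s) ^ 2 ≤ (3 / 2 * (p * x + s * y)) ^ 2 := by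
    nlinarith [sq_nonneg (p * x - s * y)]
  have hR : 0 ≤ 3 / 2 * (p * x + s * y) := by positivity
  have hL : 0 ≤ x * b + y * a + p * s := by positivity
  refine ⟨abs_le_of_sq_le_sq' h3 hR |>.2, fun heq => ?_⟩
  have h4 : (x / a + y / b + p * s / (a * b)) ^ 2 = 9 * (x / a * (y / b) * (p * s / (a * b))) := by
    rw [e1, e2, div_pow]
    congr 1
    refine le_antisymm h1 ?_
    rw [heq]
    nlinarith [sq_nonneg (p * x - s * y)]
  exact ⟨(h2 h4).1, (h2 h4).2.1⟩

/-! ### calculus -/

theorem cont1 {f : ℝ → ℝ} (hf : ContDiff ℝ 2 f) : ContDiff ℝ 1 (deriv f) := by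
  have := ContDiff.iterate_deriv' 1 1 (f := f) (by simpa [one_add_one_eq_two] using hf)
  simpa using this

theorem cont2 {f : ℝ → ℝ} (hf : ContDiff ℝ 2 f) : Continuous (deriv (deriv f)) :=
  (cont1 hf).continuous_deriv (le_refl _)

theorem hasD1 {f : ℝ → ℝ} (hf : ContDiff ℝ 2 f) (r : ℝ) : HasDerivAt f (deriv f r) r :=
  (hf.differentiable (by norm_num) r).hasDerivAt

theorem hasD2 {f : ℝ → ℝ} (hf : ContDiff ℝ 2 f) (r : ℝ) :
    HasDerivAt (deriv f) (deriv (deriv f) r) r :=
  ((cont1 hf).differentiable (by norm_num) r).hasDerivAt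

theorem integral_sq {f : ℝ → ℝ} (hf : ContDiff ℝ 2 f) (L : ℝ) :
    ∫ r in (0 : ℝ)..L, deriv f r * deriv (deriv f) r = (deriv f L ^ 2 - deriv f 0 ^ 2) / 2 := by
  have h := intervalIntegral.integral_eq_sub_of_hasDerivAt (a := 0) (b := L)
    (f := fun r => deriv f r ^ 2 / 2) (f' := fun r => deriv f r * deriv (deriv f) r)
    (fun r _ => by
      have := ((hasD2 hf r).pow 2).div_const 2
      refine this.congr_deriv ?_
      simp
      ring)
    (((cont1 hf).continuous.mul (cont2 hf)).intervalIntegrable _ _)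
  rw [h]
  ring

section main

variable {L : ℝ} {a b : ℝ → ℝ}

theorem sigma1_eq (r : ℝ) : sigma1 a b r = (K₁ a r + K₂ b r + K₃ a b r) / 2 := by
  simp only [sigma1, lam₁, lam₂, lam₃, scal]
  ring

theorem sigma2_eq (r : ℝ) : sigma2 a b r = (4 * (K₁ a r * K₂ b r + K₂ b r * K₃ a b r
    + K₃ a b r * K₁ a r) - (K₁ a r + K₂ b r + K₃ a b r) ^ 2) / 4 := by
  simp only [sigma2, lam₁, lam₂, lam₃, scal]
  ring

theorem curv_facts {r : ℝ} (h1 : 0 < sigma1 a b r) (h2 : 1 / 2 ≤ sigma2 a b r / sigma1 a b r) :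
    (0 < K₁ a r ∧ 0 < K₂ b r ∧ 0 < K₃ a b r) ∧
      K₁ a r + K₂ b r + K₃ a b r ≤ 4 * (K₁ a r * K₂ b r + K₂ b r * K₃ a b r
        + K₃ a b r * K₁ a r) - (K₁ a r + K₂ b r + K₃ a b r) ^ 2 := by
  rw [le_div_iff₀ h1, sigma2_eq, sigma1_eq] at h2
  rw [sigma1_eq] at h1
  exact ⟨pos_of_cone (by linarith) (by linarith), by linarith⟩

/-- All pointwise facts on the open interval. -/
theorem facts (hP : IsProfile L a b) (h1 : ∀ r ∈ Ioo 0 L, 0 < sigma1 a b r)
    (h2 : ∀ r ∈ Ioo 0 L, 1 / 2 ≤ sigma2 a b r / sigma1 a b r) :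
    ∀ r ∈ Ioo 0 L, 0 < a r ∧ 0 < b r ∧ 0 < deriv a r ∧ 0 < -deriv b r ∧
      0 < -deriv (deriv a) r ∧ 0 < -deriv (deriv b) r := by
  have ha : ∀ r ∈ Ioo 0 L, 0 < a r := fun r hr => hP.a_pos r ⟨hr.1, hr.2.le⟩
  have hb : ∀ r ∈ Ioo 0 L, 0 < b r := fun r hr => hP.b_pos r ⟨hr.1.le, hr.2⟩
  have haa : ∀ r ∈ Ioo 0 L, 0 < -deriv (deriv a) r := fun r hr => by
    have := (curv_facts (h1 r hr) (h2 r hr)).1.1
    rw [K₁, div_pos_iff_of_pos_right (ha r hr)] at this
    exact this
  have hbb : ∀ r ∈ Ioo 0 L, 0 < -deriv (deriv b) r := fun r hr => by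
    have := (curv_facts (h1 r hr) (h2 r hr)).1.2.1
    rw [K₂, div_pos_iff_of_pos_right (hb r hr)] at this
    exact this
  have hanti : StrictAntiOn (deriv a) (Icc 0 L) := by
    refine strictAntiOn_of_deriv_neg (convex_Icc 0 L) (cont1 hP.smooth_a).continuous.continuousOn ?_
    intro r hr
    rw [interior_Icc] at hr
    linarith [haa r hr]
  have hantib : StrictAntiOn (deriv b) (Icc 0 L) := by
    refine strictAntiOn_of_deriv_neg (convex_Icc 0 L) (cont1 hP.smooth_b).continuous.continuousOn ?_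
    intro r hr
    rw [interior_Icc] at hr
    linarith [hbb r hr]
  intro r hr
  refine ⟨ha r hr, hb r hr, ?_, ?_, haa r hr, hbb r hr⟩
  · have := hanti ⟨hr.1.le, hr.2.le⟩ ⟨hP.pos.le, le_refl _⟩ hr.2
    rw [hP.deriv_a_end] at this
    exact this
  · have := hantib ⟨le_refl _, hP.pos.le⟩ ⟨hr.1.le, hr.2.le⟩ hr.1
    rw [hP.deriv_b_zero] at this
    linarith

theorem integrand_eq {r : ℝ} (ha : 0 < a r) (hb : 0 < b r) :
    sigma1 a b r * (a r * b r) = (-deriv (deriv a) r * b r + -deriv (deriv b) r * a r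
      + deriv a r * -deriv b r) / 2 := by
  rw [sigma1_eq, K₁, K₂, K₃]
  field_simp

theorem key (hP : IsProfile L a b) (h1 : ∀ r ∈ Ioo 0 L, 0 < sigma1 a b r)
    (h2 : ∀ r ∈ Ioo 0 L, 1 / 2 ≤ sigma2 a b r / sigma1 a b r) :
    ∀ r ∈ Ioo 0 L, (-deriv (deriv a) r * b r + -deriv (deriv b) r * a r
      + deriv a r * -deriv b r) ≤ 3 / 2 * (deriv a r * -deriv (deriv a) r
        + -deriv b r * -deriv (deriv b) r) ∧
      ((-deriv (deriv a) r * b r + -deriv (deriv b) r * a r
      + deriv a r * -deriv b r) = 3 / 2 * (deriv a r * -deriv (deriv a) r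
        + -deriv b r * -deriv (deriv b) r) →
        -deriv (deriv a) r = a r ∧ -deriv (deriv b) r = b r) := by
  intro r hr
  obtain ⟨ha, hb, hp, hs, hx, hy⟩ := facts hP h1 h2 r hr
  have hq := (curv_facts (h1 r hr) (h2 r hr)).2
  have e3 : K₃ a b r = deriv a r * -deriv b r / (a r * b r) := by
    rw [K₃]; ring
  rw [e3] at hq
  obtain ⟨k1, k2⟩ := integrand_bound ha hb hp hs hx hy hq
  refine ⟨k1, fun h => ?_⟩
  obtain ⟨u, v⟩ := k2 h
  rw [div_eq_one_iff_eq ha.ne'] at u
  rw [div_eq_one_iff_eq hb.ne'] at v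
  exact ⟨u, v⟩

end main

theorem result (L : ℝ) (a b : ℝ → ℝ) (hP : IsProfile L a b)
    (h1 : ∀ r ∈ Ioo 0 L, 0 < sigma1 a b r)
    (h2 : ∀ r ∈ Ioo 0 L, 1 / 2 ≤ sigma2 a b r / sigma1 a b r) :
    total L a b ≤ 3 * Real.pi ^ 2 ∧ (total L a b = 3 * Real.pi ^ 2 →
      L = Real.pi / 2 ∧ ∀ r ∈ Icc 0 L, a r = Real.sin r ∧ b r = Real.cos r) := by
  have hk := key hP h1 h2
  have hf := facts hP h1 h2
  have ca := hP.smooth_a.continuous
  have cb := hP.smooth_b.continuous
  have ca1 := (cont1 hP.smooth_a).continuous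
  have cb1 := (cont1 hP.smooth_b).continuous
  have ca2 := cont2 hP.smooth_a
  have cb2 := cont2 hP.smooth_b
  set F : ℝ → ℝ := fun r => (-deriv (deriv a) r * b r + -deriv (deriv b) r * a r
      + deriv a r * -deriv b r) / 2 with hF
  set G : ℝ → ℝ := fun r => 3 / 4 * (-(deriv a r * deriv (deriv a) r)
        + deriv b r * deriv (deriv b) r) with hG
  have cF : Continuous F := by
    rw [hF]
    exact ((((ca2.neg.mul cb).add (cb2.neg.mul ca)).add (ca1.mul cb1.neg))).div_const 2
  have cG : Continuous G := by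
    rw [hG]
    exact continuous_const.mul (((ca1.mul ca2).neg).add (cb1.mul cb2))
  have hFG : ∀ r ∈ Ioo 0 L, F r ≤ G r := fun r hr => by
    have := (hk r hr).1
    simp only [hF, hG]
    linarith
  have hint : ∫ r in (0 : ℝ)..L, sigma1 a b r * (a r * b r) = ∫ r in (0 : ℝ)..L, F r := by
    refine intervalIntegral.integral_congr_ae ?_
    rw [uIoc_of_le hP.pos.le]
    have : ∀ᵐ r : ℝ, r ≠ L := by
      rw [ae_iff]
      simp
    filter_upwards [this] with r hr hr2
    have hr3 : r ∈ Ioo 0 L := ⟨hr2.1, lt_of_le_of_ne hr2.2 hr⟩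
    obtain ⟨ha, hb, -⟩ := hf r hr3
    exact integrand_eq ha hb
  have hGint : ∫ r in (0 : ℝ)..L, G r = 3 / 4 := by
    have e1 := integral_sq hP.smooth_a L
    have e2 := integral_sq hP.smooth_b L
    rw [hP.deriv_a_end, hP.deriv_a_zero] at e1
    rw [hP.deriv_b_end, hP.deriv_b_zero] at e2
    have e3 : ∫ r in (0 : ℝ)..L, (-(deriv a r * deriv (deriv a) r)
        + deriv b r * deriv (deriv b) r) = 1 := by
      have i1 : IntervalIntegrable (fun r => -(deriv a r * deriv (deriv a) r)) volume 0 L :=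
        (ca1.mul ca2).neg.intervalIntegrable _ _
      have i2 : IntervalIntegrable (fun r => deriv b r * deriv (deriv b) r) volume 0 L :=
        (cb1.mul cb2).intervalIntegrable _ _
      rw [intervalIntegral.integral_add i1 i2, intervalIntegral.integral_neg, e1, e2]
      norm_num
    rw [hG, intervalIntegral.integral_const_mul, e3]
    norm_num
  have hle : ∫ r in (0 : ℝ)..L, F r ≤ ∫ r in (0 : ℝ)..L, G r :=
    intervalIntegral.integral_mono_on_of_le_Ioo hP.pos.le (cF.intervalIntegrable _ _)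
      (cG.intervalIntegrable _ _) hFG
  have hpi : 0 < (2 * Real.pi) ^ 2 := by positivity
  constructor
  · rw [total, hint]
    rw [hGint] at hle
    nlinarith
  · intro heq
    rw [total, hint] at heq
    have hFi : ∫ r in (0 : ℝ)..L, F r = 3 / 4 := by
      have : (2 * Real.pi) ^ 2 * (∫ r in (0 : ℝ)..L, F r) = (2 * Real.pi) ^ 2 * (3 / 4) := by
        rw [heq]; ring
      exact mul_left_cancel₀ hpi.ne' this
    have hzero : ∀ r ∈ Ioo 0 L, F r = G r := by
      by_contra hcon
      push Not at hcon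
      obtain ⟨c, hc, hne⟩ := hcon
      have hlt : F c < G c := lt_of_le_of_ne (hFG c hc) hne
      have := intervalIntegral.integral_lt_integral_of_continuousOn_of_le_of_exists_lt hP.pos
        cF.continuousOn cG.continuousOn
        (fun r hr => by
          rcases eq_or_lt_of_le hr.2 with h | h
          · have hclos : ∀ x ∈ closure (Ioo 0 L), F x ≤ G x := fun x hx =>
              closure_minimal (fun y hy => hFG y hy) (isClosed_le cF cG) hx
            exact hclos r (by rw [closure_Ioo hP.pos.ne]; exact ⟨hr.1.le, hr.2⟩)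
          · exact hFG r ⟨hr.1, h⟩)
        ⟨c, ⟨hc.1.le, hc.2.le⟩, hlt⟩
      rw [hFi, hGint] at this
      exact lt_irrefl _ this
    have hode : ∀ r ∈ Ioo 0 L, -deriv (deriv a) r = a r ∧ -deriv (deriv b) r = b r := by
      intro r hr
      refine (hk r hr).2 ?_
      have := hzero r hr
      simp only [hF, hG] at this
      linarith
    have hcl : ∀ r ∈ Icc 0 L, deriv (deriv a) r = -a r ∧ deriv (deriv b) r = -b r := by
      have hs : Icc 0 L ⊆ {r | deriv (deriv a) r = -a r ∧ deriv (deriv b) r = -b r} := by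
        rw [← closure_Ioo hP.pos.ne]
        refine closure_minimal (fun r hr => ?_) ?_
        · obtain ⟨u, v⟩ := hode r hr
          exact ⟨by linarith, by linarith⟩
        · exact (isClosed_eq ca2 ca.neg).inter (isClosed_eq cb2 cb.neg)
      exact fun r hr => hs hr
    -- solving the differential equations
    have solve : ∀ f : ℝ → ℝ, ContDiff ℝ 2 f → (∀ r ∈ Icc 0 L, deriv (deriv f) r = -f r) →
        ∀ r ∈ Icc 0 L, f r = f 0 * Real.cos r + deriv f 0 * Real.sin r ∧
          deriv f r = -f 0 * Real.sin r + deriv f 0 * Real.cos r := by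
      intro f hf hode r hr
      have hc1 : ∀ x ∈ Icc 0 L, f x * Real.cos x - deriv f x * Real.sin x = f 0 := by
        have := constant_of_has_deriv_right_zero (a := 0) (b := L)
          (f := fun x => f x * Real.cos x - deriv f x * Real.sin x)
          (by
            exact ((hf.continuous.mul Real.continuous_cos).sub
              ((cont1 hf).continuous.mul Real.continuous_sin)).continuousOn)
          (fun x hx => by
            have h := (((hasD1 hf x).mul (Real.hasDerivAt_cos x)).sub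
              ((hasD2 hf x).mul (Real.hasDerivAt_sin x))).hasDerivWithinAt (s := Ici x)
            refine h.congr_deriv ?_
            rw [hode x ⟨hx.1, hx.2.le⟩]
            ring)
        intro x hx
        have := this x hx
        simpa using this
      have hc2 : ∀ x ∈ Icc 0 L, f x * Real.sin x + deriv f x * Real.cos x = deriv f 0 := by
        have := constant_of_has_deriv_right_zero (a := 0) (b := L)
          (f := fun x => f x * Real.sin x + deriv f x * Real.cos x)
          (by
            exact ((hf.continuous.mul Real.continuous_sin).add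
              ((cont1 hf).continuous.mul Real.continuous_cos)).continuousOn)
          (fun x hx => by
            have h := (((hasD1 hf x).mul (Real.hasDerivAt_sin x)).add
              ((hasD2 hf x).mul (Real.hasDerivAt_cos x))).hasDerivWithinAt (s := Ici x)
            refine h.congr_deriv ?_
            rw [hode x ⟨hx.1, hx.2.le⟩]
            ring)
        intro x hx
        have := this x hx
        simpa using this
      have e1 := hc1 r hr
      have e2 := hc2 r hr
      have e3 := Real.sin_sq_add_cos_sq r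
      constructor
      · rw [← e1, ← e2]
        linear_combination (-f r) * e3
      · rw [← e1, ← e2]
        linear_combination (-deriv f r) * e3
    have sa := solve a hP.smooth_a (fun r hr => (hcl r hr).1)
    have sb := solve b hP.smooth_b (fun r hr => (hcl r hr).2)
    rw [hP.a_zero, hP.deriv_a_zero] at sa
    rw [hP.deriv_b_zero] at sb
    have hLmem : L ∈ Icc 0 L := ⟨hP.pos.le, le_refl _⟩
    have hcosL : Real.cos L = 0 := by
      have := (sa L hLmem).2
      rw [hP.deriv_a_end] at this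
      linarith
    have hcospos : ∀ r ∈ Ioo 0 L, 0 < Real.cos r := by
      intro r hr
      have h3 := (hf r hr).2.2.1
      have h4 := (sa r ⟨hr.1.le, hr.2.le⟩).2
      linarith
    have hLe : L ≤ Real.pi / 2 := by
      by_contra hcon
      push Not at hcon
      have := hcospos (Real.pi / 2) ⟨by positivity, hcon⟩
      rw [Real.cos_pi_div_two] at this
      exact lt_irrefl _ this
    have hLeq : L = Real.pi / 2 := by
      rcases eq_or_lt_of_le hLe with h | h
      · exact h
      · exfalso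
        have := Real.cos_pos_of_mem_Ioo ⟨by linarith [hP.pos, Real.pi_pos], h⟩
        linarith
    refine ⟨hLeq, fun r hr => ⟨?_, ?_⟩⟩
    · have := (sa r hr).1
      linarith
    · have hb0 : b 0 = 1 := by
        have h5 := (sb L hLmem).2
        rw [hP.deriv_b_end, hLeq, Real.sin_pi_div_two, Real.cos_pi_div_two] at h5
        linarith
      have := (sb r hr).1
      rw [hb0] at this
      linarith

end Pool.Agent.Results.MP_7221a0_gt.TorusMetrics
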